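import Pool.Agent.H.MP_260507_an.J

namespace Pool.Agent.Results.MP_260507_an.RigidInput
open Pool.Agent.H.MP_260507_an

theorem result {C A NT AT : Type} [Fintype C] [Fintype A] (G : Network C A NT AT)
    (n : ℕ∞) (hn : 1 ≤ n) (f : G.State → G.State) (hf : G.Admissible n f)
    (x : ℝ → G.State) (T : ℝ) (hx : HyperbolicOrbit f x T) (c d : C) (θ : ℝ)
    (hr : G.Rigid n f x T fun y T' => ∀ s, G.node (y s) c = G.node (y (s + θ * T' / T)) d) :
    G.nodeType c = G.nodeType d ∧ ∀ a : AT,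
      Nat.card {e : A // G.head e = c ∧ G.arrowType e = a} =
        Nat.card {e : A // G.head e = d ∧ G.arrowType e = a} := by
  obtain ⟨h1, β, h2⟩ := Network.rigid_phase hn hf hx c d θ hr
  refine ⟨h1, fun a => Nat.card_congr
    ⟨fun e => ⟨(β ⟨e.1, e.2.1⟩).1, (β ⟨e.1, e.2.1⟩).2, (h2 _).trans e.2.2⟩,
     fun e => ⟨(β.symm ⟨e.1, e.2.1⟩).1, (β.symm ⟨e.1, e.2.1⟩).2, by
       have := h2 (β.symm ⟨e.1, e.2.1⟩)
       rw [Equiv.apply_symm_apply] at this
       exact this.symm.trans e.2.2⟩, fun e => Subtype.ext ?_, fun e => Subtype.ext ?_⟩⟩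
  · exact congrArg (fun u : G.In c => u.1) (β.symm_apply_apply ⟨e.1, e.2.1⟩)
  · exact congrArg (fun u : G.In d => u.1) (β.apply_symm_apply ⟨e.1, e.2.1⟩)

end Pool.Agent.Results.MP_260507_an.RigidInput
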